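import Pool.Agent.R826.CIFSEx

/-!
# The local dimension of a CIFS dimension spectrum need not be continuous on the spectrum
-/

namespace Pool.Agent.Results.MP_906def_an.LocDimDiscontinuous

open Set Filter Topology Pool.Agent.R826.CIFS

/-- There is a conformal iterated function system on the line (made of affine maps of `[0,1]`)
whose dimension spectrum `F` contains `1/2` and a sequence of points `x_k > 1/2` converging to
`1/2`, with local Hausdorff dimension `1` at `1/2` and `0` at all `x_k`. In particular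
`x ↦ dim_x(F)` is not continuous on `F`. -/
theorem result :
    ∃ (E : Type) (φ : E → ℝ → ℝ), IsCIFS (Icc (0 : ℝ) 1) φ ∧
      (∀ e, ∃ r b : ℝ, 0 < r ∧ ∀ x, φ e x = r * x + b) ∧
      (1 / 2 ∈ DSall (Icc (0 : ℝ) 1) φ ∧ locDim (DSall (Icc (0 : ℝ) 1) φ) (1 / 2) = 1) ∧
      (∃ x : ℕ → ℝ, (∀ k, x k ∈ DSall (Icc (0 : ℝ) 1) φ ∧ 1 / 2 < x k ∧
        locDim (DSall (Icc (0 : ℝ) 1) φ) (x k) = 0) ∧ Tendsto x atTop (𝓝 (1 / 2))) ∧
      ¬ ContinuousOn (locDim (DSall (Icc (0 : ℝ) 1) φ)) (DSall (Icc (0 : ℝ) 1) φ) := by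
  have hhalf : (1 / 2 : ℝ) ∈ DSall (Icc (0 : ℝ) 1) ph :=
    isSpec_DSall.lo (half_mem (by norm_num) le_rfl)
  refine ⟨E, ph, isCIFS, fun e => ⟨rr e, bb e, sim.pos e, sim.aff e⟩,
    ⟨hhalf, locDim_half isSpec_DSall⟩,
    ⟨sp, fun k => ⟨isSpec_DSall.lo (sp_mem k), sp_gt k, locDim_gt isSpec_DSall (sp_gt k)⟩, sp_lim⟩,
    ?_⟩
  intro hcont
  have h1 : Tendsto (locDim (DSall (Icc (0 : ℝ) 1) ph))
      (𝓝[DSall (Icc (0 : ℝ) 1) ph] (1 / 2)) (𝓝 (locDim (DSall (Icc (0 : ℝ) 1) ph) (1 / 2))) :=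
    hcont (1 / 2) hhalf
  have h2 : Tendsto sp atTop (𝓝[DSall (Icc (0 : ℝ) 1) ph] (1 / 2)) :=
    tendsto_nhdsWithin_iff.mpr ⟨sp_lim, Eventually.of_forall fun k => isSpec_DSall.lo (sp_mem k)⟩
  have h3 := h1.comp h2
  have h4 : (locDim (DSall (Icc (0 : ℝ) 1) ph)) ∘ sp = fun _ => 0 :=
    funext fun k => locDim_gt isSpec_DSall (sp_gt k)
  rw [h4, locDim_half isSpec_DSall] at h3
  exact zero_ne_one (tendsto_nhds_unique tendsto_const_nhds h3)

end Pool.Agent.Results.MP_906def_an.LocDimDiscontinuous
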